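import Mathlib

namespace Pool.Agent.Results.MP_cd2ba9_co.Counter
open Matrix

/-- the multicone graph: join of K_w with m disjoint copies of the cycle C_n. -/
def multicone (w m n : ℕ) : SimpleGraph (Fin w ⊕ Fin m × Fin n) :=
  SimpleGraph.fromRel (fun a b => match a, b with
    | Sum.inl _, _ => True
    | Sum.inr _, Sum.inl _ => True
    | Sum.inr p, Sum.inr q => p.1 = q.1 ∧ (SimpleGraph.cycleGraph n).Adj p.2 q.2)

open Classical in
/-- adjacency spectrum: the multiset of roots of the characteristic polynomial. -/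
noncomputable def spec {V : Type} [Fintype V] (G : SimpleGraph V) : Multiset ℝ :=
  (G.adjMatrix ℝ).charpoly.roots

def adjH (a b : Fin 8) : Bool :=
  [(0,1),(0,2),(0,3),(1,2),(1,3),(0,4),(0,5),(1,6),(1,7)].contains (a.val, b.val)

def H : SimpleGraph (Fin 8) := SimpleGraph.fromRel (fun a b => adjH a b = true)

instance : DecidableRel H.Adj := fun a b => by
  unfold H; rw [SimpleGraph.fromRel_adj]; infer_instance

abbrev W := Fin 2 ⊕ Fin 1 × Fin 6

def ix : W → ℕ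
  | Sum.inl a => a.val
  | Sum.inr p => 2 + p.2.val

def adjG (a b : W) : Bool :=
  decide (2 ≤ ix a ∧ 2 ≤ ix b ∧ ix a ≠ ix b ∧ (ix a + 1) % 6 ≠ ix b % 6 ∧ (ix b + 1) % 6 ≠ ix a % 6)

lemma adjG_iff (a b : W) : (multicone 2 1 6)ᶜ.Adj a b ↔ adjG a b = true := by
  rw [SimpleGraph.compl_adj, multicone, SimpleGraph.fromRel_adj]
  rcases a with a | ⟨a1, a2⟩ <;> rcases b with b | ⟨b1, b2⟩
  · simp only [or_self, and_true]; revert a b; decide
  · simp only [or_self, and_true]; revert a b1 b2; decide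
  · simp only [or_self, and_true]; revert a1 a2 b; decide
  · simp only []; revert a1 a2 b1 b2; decide

def X (i : Fin 8) (k : W) : ℤ :=
  (([[0, 0, 6, 6, 6, 0, 0, 0], [0, 0, 0, 6, 6, 6, 0, 0], [0, 0, 2, -1, -1, 2, 5, 5],
    [0, 0, 2, -1, -1, 2, 5, 5], [0, 0, 1, -2, 1, 1, 4, 1], [0, 0, 1, -2, 1, 1, 4, 1],
    [0, 0, 1, 1, -2, 1, 1, 4], [0, 0, 1, 1, -2, 1, 1, 4]] : List (List ℤ)).getD i.val []).getD (ix k) 0

def Y (k : W) (j : Fin 8) : ℤ :=
  (([[0, 0, 0, 0, 0, 0, 0, 0], [0, 0, 0, 0, 0, 0, 0, 0], [-1, 4, 1, 1, 3, 3, -2, -2],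
    [-2, 3, 2, 2, 1, 1, 1, 1], [3, -2, 2, 2, 1, 1, 1, 1], [4, -1, 1, 1, -2, -2, 3, 3],
    [5, 0, 0, 0, 0, 0, 0, 0], [0, 5, 0, 0, 0, 0, 0, 0]] : List (List ℤ)).getD (ix k) []).getD j.val 0

lemma h1 : ∀ i j : Fin 8, ∑ k, X i k * Y k j = if H.Adj i j then 30 else 0 := by decide +kernel

lemma h2 : ∀ a b : W, ∑ k, Y a k * X k b = if adjG a b = true then 30 else 0 := by decide +kernel

lemma spec_eq {V : Type} [Fintype V] [DecidableEq V] (G : SimpleGraph V) (A : Matrix V V ℝ)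
    (h1 : ∀ i j, G.Adj i j → A i j = 1) (h0 : ∀ i j, ¬ G.Adj i j → A i j = 0) :
    spec G = A.charpoly.roots := by
  classical
  unfold spec
  have : A = G.adjMatrix ℝ := by
    ext i j
    rw [SimpleGraph.adjMatrix_apply]
    split_ifs with h
    · exact h1 i j h
    · exact h0 i j h
  rw [this]
  congr

lemma cosp : spec H = spec (multicone 2 1 6)ᶜ := by
  obtain ⟨Xr, hX⟩ : ∃ Xr : Matrix (Fin 8) W ℝ, ∀ i k, Xr i k = (X i k : ℝ) / 30 :=
    ⟨Matrix.of fun i k => (X i k : ℝ) / 30, fun _ _ => rfl⟩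
  obtain ⟨Yr, hY⟩ : ∃ Yr : Matrix W (Fin 8) ℝ, ∀ k j, Yr k j = (Y k j : ℝ) :=
    ⟨Matrix.of fun k j => (Y k j : ℝ), fun _ _ => rfl⟩
  have key := Matrix.charpoly_mul_comm' Xr Yr
  have e1 : ∀ i j, (Xr * Yr) i j = if H.Adj i j then 1 else 0 := by
    intro i j
    have := congrArg (Int.cast : ℤ → ℝ) (h1 i j)
    rw [Int.cast_sum] at this
    simp only [Int.cast_mul] at this
    simp only [Matrix.mul_apply, hX, hY, div_mul_eq_mul_div, ← Finset.sum_div]
    rw [this]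
    split_ifs <;> norm_num
  have e2 : ∀ i j, (Yr * Xr) i j = if adjG i j = true then 1 else 0 := by
    intro i j
    have := congrArg (Int.cast : ℤ → ℝ) (h2 i j)
    rw [Int.cast_sum] at this
    simp only [Int.cast_mul] at this
    simp only [Matrix.mul_apply, hX, hY, ← mul_div_assoc, ← Finset.sum_div]
    rw [this]
    split_ifs <;> norm_num
  have c1 : Fintype.card W = 8 := by decide
  rw [c1, Fintype.card_fin] at key
  have key2 := mul_left_cancel₀ (pow_ne_zero 8 Polynomial.X_ne_zero) key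
  rw [spec_eq H (Xr * Yr) (fun i j h => by rw [e1, if_pos h]) (fun i j h => by rw [e1, if_neg h]),
    spec_eq (multicone 2 1 6)ᶜ (Yr * Xr) (fun i j h => by rw [e2, if_pos ((adjG_iff i j).mp h)])
      (fun i j h => by rw [e2, if_neg (fun h' => h ((adjG_iff i j).mpr h'))]), key2]

theorem result : ¬ ∀ w m n : ℕ, 1 ≤ w → 1 ≤ m → 3 ≤ n →
    ∀ (N : ℕ) (G : SimpleGraph (Fin N)), spec G = spec (multicone w m n)ᶜ →
      Nonempty (G ≃g (multicone w m n)ᶜ) := by
  intro h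
  obtain ⟨e⟩ := h 2 1 6 (by norm_num) (by norm_num) (by norm_num) 8 H cosp
  have hH : ∀ a : Fin 8, ∃ b, H.Adj a b := by decide
  obtain ⟨b, hb⟩ := hH (e.symm (Sum.inl 0))
  have h3 := e.map_rel_iff.mpr hb
  rw [RelIso.apply_symm_apply, adjG_iff] at h3
  revert h3
  generalize e b = c
  revert c
  decide

end Pool.Agent.Results.MP_cd2ba9_co.Counter
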